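import Pool.Agent.Helper99.DF.St

set_option autoImplicit false

namespace Pool.Agent.Helper15.DF

open Pool.Agent.Helper99.DF
open Filter Topology

/-- bounds for the normalised iterates -/
private lemma gg_bd {S : Finset ℕ} {b al : ℕ → ℝ} {G : ℝ}
    (h : ∀ t, ∀ k ∈ S, Real.exp (2 ^ t * al k) ≤ (T^[t] b) k ∧
      (T^[t] b) k ≤ G * Real.exp (2 ^ t * al k)) (t k : ℕ) (hk : k ∈ S) :
    1 ≤ gg b al t k ∧ gg b al t k ≤ G := by
  obtain ⟨h1, h2⟩ := h t k hk
  have hE : Real.exp (2 ^ t * al k) * Real.exp (-(2 ^ t * al k)) = 1 := by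
    rw [← Real.exp_add, add_neg_cancel, Real.exp_zero]
  have hp : 0 < Real.exp (-(2 ^ t * al k)) := Real.exp_pos _
  unfold gg
  constructor
  · rw [← hE]
    exact mul_le_mul_of_nonneg_right h1 hp.le
  · calc (T^[t] b) k * Real.exp (-(2 ^ t * al k))
        ≤ (G * Real.exp (2 ^ t * al k)) * Real.exp (-(2 ^ t * al k)) :=
          mul_le_mul_of_nonneg_right h2 hp.le
      _ = G := by rw [mul_assoc, hE, mul_one]

/-- one step: the largest ratio is at least squared -/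
private lemma step {S : Finset ℕ} {b al : ℕ → ℝ} (hGR : StGR) (hP : Per S b)
    (h1 : ∀ t, ∀ k ∈ S, 1 ≤ gg b al t k) (hc : ∀ k ∈ act S, 0 ≤ cc al k) (t : ℕ) (D : ℝ)
    (hD : 1 ≤ D) (hex : ∃ k ∈ S, D * gg b al t k ≤ gg b al (t + 1) k) :
    ∃ k ∈ S, D ^ 2 * gg b al (t + 1) k ≤ gg b al (t + 1 + 1) k := by
  obtain ⟨k₁, hk₁, hk₁'⟩ := hex
  obtain ⟨k, hk, hmax⟩ := Finset.exists_max_image S
    (fun k => gg b al (t + 1) k / gg b al t k) ⟨k₁, hk₁⟩
  set R : ℝ := gg b al (t + 1) k / gg b al t k with hR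
  have hpos : ∀ s, ∀ k ∈ S, 0 < gg b al s k := fun s k hk => lt_of_lt_of_le one_pos (h1 s k hk)
  have hDR : D ≤ R := by
    refine le_trans ?_ (hmax k₁ hk₁)
    rw [le_div_iff₀ (hpos t k₁ hk₁)]
    exact hk₁'
  have hR1 : 1 ≤ R := hD.trans hDR
  have heq : gg b al (t + 1) k = R * gg b al t k := by
    rw [hR, div_mul_cancel₀ _ (hpos t k hk).ne']
  have hle : ∀ k' ∈ S, gg b al (t + 1) k' ≤ R * gg b al t k' := by
    intro k' hk'
    have := hmax k' hk'
    rwa [div_le_iff₀ (hpos t k' hk')] at this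
  refine ⟨k, hk, ?_⟩
  have hD2 : D ^ 2 ≤ R ^ 2 := pow_le_pow_left₀ (by linarith) hDR 2
  refine le_trans (mul_le_mul_of_nonneg_right hD2 (hpos _ k hk).le) ?_
  obtain ⟨a1, a2⟩ := hGR S b al hP t k hk
  obtain ⟨b1, b2⟩ := hGR S b al hP (t + 1) k hk
  by_cases hact : k ∈ act S
  · have a3 := a1 hact
    have b3 := b1 hact
    obtain ⟨-, hm, hp⟩ := mem_act.1 hact
    set E : ℝ := Real.exp (-(2 ^ t * cc al k)) with hE
    have hE0 : 0 < E := Real.exp_pos _
    have hE1 : E ≤ 1 := by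
      rw [hE]
      apply Real.exp_le_one_iff.2
      have := hc k hact
      have h2 : (0 : ℝ) ≤ 2 ^ t := by positivity
      nlinarith [mul_nonneg h2 this]
    have hE2 : Real.exp (-(2 ^ (t + 1) * cc al k)) = E ^ 2 := by
      rw [hE, ← Real.exp_nat_mul]
      congr 1
      push_cast
      ring
    rw [hE2] at b3
    set x := gg b al t (k - 1) with hx
    set y := gg b al t (k + 1) with hy
    have hx0 : 0 < x := hpos t _ hm
    have hy0 : 0 < y := hpos t _ hp
    have hx' := hle _ hm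
    have hy' := hle _ hp
    have hxx : 0 < gg b al (t + 1) (k - 1) := hpos _ _ hm
    have hyy : 0 < gg b al (t + 1) (k + 1) := hpos _ _ hp
    have hprod : gg b al (t + 1) (k - 1) * gg b al (t + 1) (k + 1) ≤ R ^ 2 * (x * y) := by
      calc gg b al (t + 1) (k - 1) * gg b al (t + 1) (k + 1)
          ≤ (R * x) * (R * y) := mul_le_mul hx' hy' hyy.le (by positivity)
        _ = R ^ 2 * (x * y) := by ring
    have hEE : E ^ 2 ≤ E := by nlinarith
    have h5 : E ^ 2 * (gg b al (t + 1) (k - 1) * gg b al (t + 1) (k + 1))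
        ≤ E * (R ^ 2 * (x * y)) :=
      mul_le_mul hEE hprod (by positivity) hE0.le
    rw [b3]
    calc R ^ 2 * gg b al (t + 1) k
        = (R * gg b al t k) ^ 2 - E * (R ^ 2 * (x * y)) := by rw [a3]; ring
      _ = gg b al (t + 1) k ^ 2 - E * (R ^ 2 * (x * y)) := by rw [heq]
      _ ≤ _ := by linarith
  · have a3 := a2 hact
    have b3 := b2 hact
    rw [b3]
    apply le_of_eq
    calc R ^ 2 * gg b al (t + 1) k = R ^ 2 * gg b al t k ^ 2 := by rw [a3]
      _ = (R * gg b al t k) ^ 2 := by ring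
      _ = gg b al (t + 1) k ^ 2 := by rw [heq]

theorem hA4 (h1 : StGR) : StA4 := by
  intro S b al G hP hG hb hc t k hk
  have hb1 : ∀ t, ∀ k ∈ S, 1 ≤ gg b al t k := fun t k hk => (gg_bd hb t k hk).1
  have hb2 : ∀ t, ∀ k ∈ S, gg b al t k ≤ G := fun t k hk => (gg_bd hb t k hk).2
  by_contra hcon
  push Not at hcon
  have hp : 0 < gg b al t k := lt_of_lt_of_le one_pos (hb1 t k hk)
  set D : ℝ := gg b al (t + 1) k / gg b al t k with hD
  have hD1 : 1 < D := by
    rw [hD, one_lt_div hp]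
    exact hcon
  have key : ∀ j : ℕ, ∃ k ∈ S, D ^ (2 ^ j) * gg b al (t + j) k ≤ gg b al (t + j + 1) k := by
    intro j
    induction j with
    | zero =>
      refine ⟨k, hk, le_of_eq ?_⟩
      rw [pow_zero, pow_one, add_zero, hD, div_mul_cancel₀ _ hp.ne']
    | succ j ih =>
      have h2 := step h1 hP hb1 hc (t + j) (D ^ (2 ^ j)) (one_le_pow₀ hD1.le) ih
      rw [← pow_mul, ← pow_succ] at h2
      exact h2
  have key2 : ∀ j : ℕ, D ^ j ≤ G := by
    intro j
    obtain ⟨k', hk', h3⟩ := key j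
    calc D ^ j ≤ D ^ (2 ^ j) := pow_le_pow_right₀ hD1.le (Nat.lt_two_pow_self).le
      _ ≤ D ^ (2 ^ j) * gg b al (t + j) k' :=
        le_mul_of_one_le_right (by positivity) (hb1 _ k' hk')
      _ ≤ _ := h3
      _ ≤ G := hb2 _ k' hk'
  obtain ⟨j, hj⟩ := pow_unbounded_of_one_lt G hD1
  exact absurd (key2 j) (not_le.2 hj)

end Pool.Agent.Helper15.DF
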