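import Pool.Agent.Helper99.DF.St

set_option autoImplicit false

namespace Pool.Agent.Helper15.DF

open Pool.Agent.Helper99.DF

/-- product over a range as a product over `Fin n` -/
private lemma prod_rg {R : Type} [CommRing R] (n : ℕ) (f : ℕ → R) :
    ((List.range n).map f).prod = ∏ i : Fin n, f i := by
  rw [← Finset.prod_range]
  rfl

theorem hCOD : StCOD := by
  intro n q
  refine ⟨q.support.toList.map (fun m => (q.coeff m, List.ofFn (fun i => m i))), ?_⟩
  intro R _ v
  unfold evB
  rw [List.map_map, MvPolynomial.aeval_def, MvPolynomial.eval₂_eq']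
  have h1 : ∀ g : (Fin n →₀ ℕ) → R, (q.support.toList.map g).sum = ∑ m ∈ q.support, g m := by
    intro g
    simp
  rw [h1]
  refine Finset.sum_congr rfl fun m _ => ?_
  simp only [Function.comp]
  rw [List.length_ofFn, prod_rg]
  congr 1
  refine Finset.prod_congr rfl fun i _ => ?_
  congr 1
  unfold ex
  rw [List.getD_eq_getElem _ _ (by simp)]
  simp

end Pool.Agent.Helper15.DF
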